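import Pool.Agent.Helper5.FRD.Goals

set_option autoImplicit false

namespace Pool.Agent.Helper44.FRD.UNIQ

open Finset
open Pool.Agent.Helper5.FRC Pool.Agent.Helper5.FRD

theorem ends_sub {V : Type} [DecidableEq V] {A Z X : Finset V} {t p : V → V} {v e : V}
    {U U0 : Finset V} (hU : Tl A Z X t p v e U) (h : U0 ⊆ U) :
    (U0.filter fun x => x ∉ Z ∨ x ∈ X) ⊆ {v, e} := by
  obtain ⟨-, -, h1, h2⟩ := hU
  intro x hx
  rw [mem_filter] at hx
  rw [mem_insert, mem_singleton]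
  rcases hx.2 with hz | hz
  · right
    have : x ∈ U \ Z := mem_sdiff.2 ⟨h hx.1, hz⟩
    rw [h2, mem_singleton] at this
    exact this
  · left
    have : x ∈ U ∩ X := mem_inter.2 ⟨h hx.1, hz⟩
    rw [h1, mem_singleton] at this
    exact this

/-- a closed subset of a tail containing one of the ends contains both -/
theorem both {V : Type} [Fintype V] [DecidableEq V] (h1 : CompStmt) {A Z X : Finset V}
    {t p : V → V} (hA : Prg A t) (hZ : Z ⊆ A) (hp : Prg Z p) (hX : X ⊆ Z)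
    (hpX : ∀ x ∈ X, p x ∈ X) {v e : V} {U : Finset V} (hU : Tl A Z X t p v e U)
    {U' : Finset V} (hU'A : U' ⊆ A) (hU' : Cl Z X t p U') (x : V) (hx : x = v ∨ x = e)
    (hxU' : x ∈ U') : v ∈ U' ∧ e ∈ U' := by
  have hvX : v ∈ U ∩ X := by rw [hU.2.2.1]; exact mem_singleton_self _
  have heZ : e ∈ U \ Z := by rw [hU.2.2.2]; exact mem_singleton_self _
  have hvU : v ∈ U := (mem_inter.1 hvX).1
  have heU : e ∈ U := (mem_sdiff.1 heZ).1
  have hxU : x ∈ U := by
    rcases hx with rfl | rfl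
    · exact hvU
    · exact heU
  have hxE : x ∉ Z ∨ x ∈ X := by
    rcases hx with rfl | rfl
    · exact Or.inr (mem_inter.1 hvX).2
    · exact Or.inl (mem_sdiff.1 heZ).2
  obtain ⟨U0, hU0A, hxU0, hcl, hmin, hcard⟩ := h1 V A Z X t p hA hZ hp hX hpX x (hU.1 hxU)
  have hsub : U0 ⊆ U := hmin U hU.1 hxU hU.2.1
  have hsub' : U0 ⊆ U' := hmin U' hU'A hxU' hU'
  have hxF : x ∈ U0.filter fun x => x ∉ Z ∨ x ∈ X := mem_filter.2 ⟨hxU0, hxE⟩
  have hc2 : (U0.filter fun v => v ∉ Z ∨ v ∈ X).card = 2 := by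
    rcases hcard with h | h
    · rw [card_eq_zero] at h
      rw [h] at hxF
      exact absurd hxF (notMem_empty _)
    · exact h
  have hle : ({v, e} : Finset V).card ≤ (U0.filter fun v => v ∉ Z ∨ v ∈ X).card := by
    rw [hc2]
    exact card_le_two
  have heq := eq_of_subset_of_card_le (ends_sub hU hsub) hle
  have m1 : v ∈ U0.filter fun v => v ∉ Z ∨ v ∈ X := by rw [heq]; exact mem_insert_self _ _
  have m2 : e ∈ U0.filter fun v => v ∉ Z ∨ v ∈ X := by
    rw [heq]; exact mem_insert_of_mem (mem_singleton_self _)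
  exact ⟨hsub' (mem_filter.1 m1).1, hsub' (mem_filter.1 m2).1⟩

theorem t (h1 : CompStmt) : Pool.Agent.Helper5.FRD.UniqStmt := by
  intro V _ _ A Z X t p hA hZ hp hX hpX v v' e e' U U' hU hU'
  constructor
  · intro h
    have hv' : v ∈ U' ∩ X := by rw [h, hU'.2.2.1]; exact mem_singleton_self _
    have := both h1 hA hZ hp hX hpX hU hU'.1 hU'.2.1 v (Or.inl rfl) (mem_inter.1 hv').1
    have heZ : e ∈ U \ Z := by rw [hU.2.2.2]; exact mem_singleton_self _
    have h2 : e ∈ U' \ Z := mem_sdiff.2 ⟨this.2, (mem_sdiff.1 heZ).2⟩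
    rw [hU'.2.2.2, mem_singleton] at h2
    exact h2
  · intro h
    have he' : e ∈ U' \ Z := by rw [h, hU'.2.2.2]; exact mem_singleton_self _
    have := both h1 hA hZ hp hX hpX hU hU'.1 hU'.2.1 e (Or.inr rfl) (mem_sdiff.1 he').1
    have hvX : v ∈ U ∩ X := by rw [hU.2.2.1]; exact mem_singleton_self _
    have h2 : v ∈ U' ∩ X := mem_inter.2 ⟨this.1, (mem_inter.1 hvX).2⟩
    rw [hU'.2.2.1, mem_singleton] at h2
    exact h2

end Pool.Agent.Helper44.FRD.UNIQ
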